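import Pool.Agent.Lib.MP_688fd0_co.TE.Iface1

/-!
# Theorem E, module BASIC: elementary facts on `Ex` and `Pr`
-/

set_option autoImplicit false
set_option linter.all false

namespace Pool.Agent.Lib.MP_688fd0_co.TE.H30

universe u v

section

variable {Ω : Type u} [Fintype Ω] {μ : Ω → ℝ}

theorem pr_mono (hμ : IsPr μ) {E F : Ω → Prop} (h : ∀ ω, E ω → F ω) : Pr μ E ≤ Pr μ F := by
  unfold Pr
  exact Finset.sum_le_sum fun ω _ => mul_le_mul_of_nonneg_left (ind_mono (h ω)) (hμ.nn ω)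

theorem pr_exists_le (hμ : IsPr μ) {κ : Type v} [Fintype κ] (E : κ → Ω → Prop) :
    Pr μ (fun ω => ∃ i, E i ω) ≤ ∑ i, Pr μ (E i) := by
  unfold Pr
  rw [Finset.sum_comm]
  refine Finset.sum_le_sum fun ω _ => ?_
  rw [← Finset.mul_sum]
  refine mul_le_mul_of_nonneg_left ?_ (hμ.nn ω)
  by_cases h : ∃ i, E i ω
  · rw [ind_of h]
    obtain ⟨i, hi⟩ := h
    have h1 : ind (E i ω) ≤ ∑ i, ind (E i ω) :=
      Finset.single_le_sum (fun j _ => ind_nonneg (E j ω)) (Finset.mem_univ i)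
    rwa [ind_of hi] at h1
  · rw [ind_not h]
    exact Finset.sum_nonneg fun j _ => ind_nonneg _

theorem markov (hμ : IsPr μ) (f : Ω → ℝ) (c : ℝ) (hf : ∀ ω, 0 ≤ f ω) (hc : 0 < c) :
    Pr μ (fun ω => c ≤ f ω) ≤ Ex μ f / c := by
  rw [le_div_iff₀ hc]
  unfold Pr Ex
  rw [Finset.sum_mul]
  refine Finset.sum_le_sum fun ω _ => ?_
  rw [mul_assoc]
  refine mul_le_mul_of_nonneg_left ?_ (hμ.nn ω)
  by_cases h : c ≤ f ω
  · rw [ind_of h, one_mul]; exact h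
  · rw [ind_not h, zero_mul]; exact hf ω

theorem chebyshev (hμ : IsPr μ) (f : Ω → ℝ) (c : ℝ) (hc : 0 < c) :
    Pr μ (fun ω => f ω ≤ Ex μ f - c) ≤ (Ex μ (fun ω => f ω ^ 2) - Ex μ f ^ 2) / c ^ 2 := by
  rw [le_div_iff₀ (by positivity)]
  set m := Ex μ f with hm
  have h1 : Ex μ (fun ω => f ω ^ 2) - m ^ 2 = ∑ ω, μ ω * (f ω - m) ^ 2 := by
    have h2 : ∑ ω, μ ω * (f ω - m) ^ 2 =
        ∑ ω, μ ω * f ω ^ 2 - 2 * m * ∑ ω, μ ω * f ω + m ^ 2 * ∑ ω, μ ω := by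
      rw [Finset.mul_sum, Finset.mul_sum, ← Finset.sum_sub_distrib, ← Finset.sum_add_distrib]
      exact Finset.sum_congr rfl fun ω _ => by ring
    have h3 : ∑ ω, μ ω * f ω = m := rfl
    rw [h2, h3, hμ.one]
    unfold Ex
    ring
  rw [h1]
  unfold Pr
  rw [Finset.sum_mul]
  refine Finset.sum_le_sum fun ω _ => ?_
  rw [mul_assoc]
  refine mul_le_mul_of_nonneg_left ?_ (hμ.nn ω)
  by_cases h : f ω ≤ m - c
  · rw [ind_of h, one_mul]
    nlinarith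
  · rw [ind_not h, zero_mul]; exact sq_nonneg _

theorem exists_not (hμ : IsPr μ) (E : Ω → Prop) (h : Pr μ E < 1) : ∃ ω, 0 < μ ω ∧ ¬ E ω := by
  by_contra hcon
  push Not at hcon
  have h1 : Pr μ E = 1 := by
    unfold Pr
    rw [← hμ.one]
    refine Finset.sum_congr rfl fun ω _ => ?_
    rcases eq_or_lt_of_le (hμ.nn ω) with h0 | h0
    · rw [← h0, zero_mul]
    · rw [ind_of (hcon ω h0), mul_one]
  rw [h1] at h
  exact lt_irrefl _ h

theorem pr_nonneg (hμ : IsPr μ) (E : Ω → Prop) : 0 ≤ Pr μ E :=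
  Finset.sum_nonneg fun ω _ => mul_nonneg (hμ.nn ω) (ind_nonneg _)

theorem pr_le_one (hμ : IsPr μ) (E : Ω → Prop) : Pr μ E ≤ 1 := by
  rw [← hμ.one]
  unfold Pr
  refine Finset.sum_le_sum fun ω _ => ?_
  exact mul_le_of_le_one_right (hμ.nn ω) (ind_le_one _)

end

theorem basic : BASIC_S.{u, v} := by
  intro Ω _ μ hμ
  exact ⟨fun E F h => pr_mono hμ h, fun κ _ E => pr_exists_le hμ E, fun f c hf hc =>
    markov hμ f c hf hc, fun f c hc => chebyshev hμ f c hc, fun E h => exists_not hμ E h,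
    fun E => ⟨pr_nonneg hμ E, pr_le_one hμ E⟩⟩

end Pool.Agent.Lib.MP_688fd0_co.TE.H30
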