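import Pool.Agent.Lib.MP_688fd0_co.TE.Iface5
import Pool.Agent.Lib.MP_688fd0_co.TE.H97.Stage

/-!
# Theorem E, module LEVS: good levels exist
-/

set_option autoImplicit false
set_option linter.all false

namespace Pool.Agent.Lib.MP_688fd0_co.TE.H30

open Pool.Agent.Lib.MP_688fd0_co.TE

universe u

/-! ### The first value -/

section fo

variable {A : Type} {T a : ℕ}

/-- `l` is the first value. -/
def FI (ω : Fin T → Fin a → Option A) (l : A) : Prop :=
  ∃ t j, ω t j = some l ∧ ∀ t' j', (t' < t ∨ (t' = t ∧ j' < j)) → ω t' j' = none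

theorem FI_unique {ω : Fin T → Fin a → Option A} {l l' : A} (h : FI ω l) (h' : FI ω l') :
    l = l' := by
  obtain ⟨t, j, h1, h2⟩ := h
  obtain ⟨t', j', h1', h2'⟩ := h'
  rcases lt_trichotomy t t' with ht | ht | ht
  · have := h2' t j (Or.inl ht)
    rw [h1] at this
    cases this
  · subst ht
    rcases lt_trichotomy j j' with hj | hj | hj
    · have := h2' t j (Or.inr ⟨rfl, hj⟩)
      rw [h1] at this
      cases this
    · subst hj
      rw [h1] at h1'
      exact Option.some.inj h1'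
    · have := h2 t j' (Or.inr ⟨rfl, hj⟩)
      rw [h1'] at this
      cases this
  · have := h2 t' j' (Or.inl ht)
    rw [h1'] at this
    cases this

open scoped Classical in
/-- The first value. -/
noncomputable def fo (ω : Fin T → Fin a → Option A) : Option A :=
  if h : ∃ l, FI ω l then some h.choose else none

theorem fo_some {ω : Fin T → Fin a → Option A} {l : A} (h : FI ω l) : fo ω = some l := by
  have hex : ∃ l, FI ω l := ⟨l, h⟩
  unfold fo
  rw [dif_pos hex, FI_unique hex.choose_spec h]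

theorem fo_none {ω : Fin T → Fin a → Option A} (h : ∀ t j, ω t j = none) : fo ω = none := by
  unfold fo
  rw [dif_neg]
  rintro ⟨l, t, j, h1, -⟩
  rw [h] at h1
  cases h1

end fo

/-- The level of `v` read off the fields. -/
noncomputable def fstv {V : Type u} {T a m : ℕ} (ω0 ω1 : Fin T → Fld a V (ZMod m))
    (d : V → ZMod m) (v : V) : ZMod m :=
  (fo (fun t j => ω0 t j v)).getD ((fo (fun t j => ω1 t j v)).getD (d v))

/-! ### Products of four laws -/

theorem sum4 {A B C D : Type*} [Fintype A] [Fintype B] [Fintype C] [Fintype D] (μ0 : A → ℝ)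
    (μ1 : B → ℝ) (μ2 : C → ℝ) (μ3 : D → ℝ) (h2 : ∑ c, μ2 c = 1) (h3 : ∑ d, μ3 d = 1)
    (f : A → B → ℝ) :
    ∑ p : A × B × C × D, μ0 p.1 * μ1 p.2.1 * μ2 p.2.2.1 * μ3 p.2.2.2 * f p.1 p.2.1 =
      ∑ a, μ0 a * ∑ b, μ1 b * f a b := by
  rw [Fintype.sum_prod_type]
  refine Finset.sum_congr rfl fun a _ => ?_
  rw [Fintype.sum_prod_type, Finset.mul_sum]
  refine Finset.sum_congr rfl fun b _ => ?_
  rw [Fintype.sum_prod_type]
  have h : ∀ c : C, ∑ d : D, μ0 a * μ1 b * μ2 c * μ3 d * f a b =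
      μ2 c * (μ0 a * (μ1 b * f a b)) := by
    intro c
    calc ∑ d : D, μ0 a * μ1 b * μ2 c * μ3 d * f a b
        = ∑ d : D, μ3 d * (μ2 c * (μ0 a * (μ1 b * f a b))) :=
          Finset.sum_congr rfl fun d _ => by ring
      _ = _ := by rw [← Finset.sum_mul, h3, one_mul]
  calc ∑ c : C, ∑ d : D, μ0 a * μ1 b * μ2 c * μ3 d * f a b
      = ∑ c : C, μ2 c * (μ0 a * (μ1 b * f a b)) := Finset.sum_congr rfl fun c _ => h c
    _ = _ := by rw [← Finset.sum_mul, h2, one_mul]

theorem isPr_unifW (Ω : Type*) [Fintype Ω] [Nonempty Ω] : IsPr (unifW Ω) where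
  nn ω := by unfold unifW; positivity
  one := by
    unfold unifW
    rw [Finset.sum_const, Finset.card_univ, nsmul_eq_mul]
    have : (Fintype.card Ω : ℝ) ≠ 0 := by exact_mod_cast Fintype.card_ne_zero
    field_simp

theorem isPr4 {A B C D : Type*} [Fintype A] [Fintype B] [Fintype C] [Fintype D] (μ0 : A → ℝ)
    (μ1 : B → ℝ) (μ2 : C → ℝ) (μ3 : D → ℝ) (h0 : IsPr μ0) (h1 : IsPr μ1) (h2 : IsPr μ2)
    (h3 : IsPr μ3) :
    IsPr (fun p : A × B × C × D => μ0 p.1 * μ1 p.2.1 * μ2 p.2.2.1 * μ3 p.2.2.2) where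
  nn p := mul_nonneg (mul_nonneg (mul_nonneg (h0.nn _) (h1.nn _)) (h2.nn _)) (h3.nn _)
  one := by
    have := sum4 μ0 μ1 μ2 μ3 h2.one h3.one (fun _ _ => 1)
    simp only [mul_one, h1.one, h0.one] at this
    exact this

theorem pr4 {A B C D : Type*} [Fintype A] [Fintype B] [Fintype C] [Fintype D] (μ0 : A → ℝ)
    (μ1 : B → ℝ) (μ2 : C → ℝ) (μ3 : D → ℝ) (h0 : IsPr μ0) (h1 : IsPr μ1) (h2 : IsPr μ2)
    (h3 : IsPr μ3) (E0 : A → Prop) (E1 : A → B → Prop) (e : ℝ) (hE0 : Pr μ0 (fun a => ¬ E0 a) ≤ e)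
    (hE1 : ∀ a, E0 a → Pr μ1 (fun b => ¬ E1 a b) ≤ e) :
    Pr (fun p : A × B × C × D => μ0 p.1 * μ1 p.2.1 * μ2 p.2.2.1 * μ3 p.2.2.2)
      (fun p => ¬ (E0 p.1 ∧ E1 p.1 p.2.1)) ≤ e + e := by
  unfold Pr
  rw [sum4 μ0 μ1 μ2 μ3 h2.one h3.one (fun a b => ind (¬ (E0 a ∧ E1 a b)))]
  have he : 0 ≤ e := (H97.pr_nonneg μ0 h0.nn _).trans hE0
  have h : ∀ a, μ0 a * ∑ b, μ1 b * ind (¬ (E0 a ∧ E1 a b)) ≤
      μ0 a * ind (¬ E0 a) + μ0 a * e := by
    intro a
    rw [← mul_add]
    refine mul_le_mul_of_nonneg_left ?_ (h0.nn a)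
    by_cases ha : E0 a
    · have : ∑ b, μ1 b * ind (¬ (E0 a ∧ E1 a b)) = Pr μ1 (fun b => ¬ E1 a b) := by
        unfold Pr
        refine Finset.sum_congr rfl fun b _ => ?_
        congr 2
        simp [ha]
      rw [this]
      have := hE1 a ha
      have := ind_nonneg (¬ E0 a)
      linarith
    · rw [ind_of ha]
      have : ∑ b, μ1 b * ind (¬ (E0 a ∧ E1 a b)) ≤ ∑ b, μ1 b := by
        refine Finset.sum_le_sum fun b _ => ?_
        exact mul_le_of_le_one_right (h1.nn b) (ind_le_one _)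
      rw [h1.one] at this
      linarith
  calc ∑ a, μ0 a * ∑ b, μ1 b * ind (¬ (E0 a ∧ E1 a b))
      ≤ ∑ a, (μ0 a * ind (¬ E0 a) + μ0 a * e) := Finset.sum_le_sum fun a _ => h a
    _ = Pr μ0 (fun a => ¬ E0 a) + e := by
        rw [Finset.sum_add_distrib, ← Finset.sum_mul, h0.one, one_mul]
        rfl
    _ ≤ e + e := by linarith

/-! ### Light sets -/

section light

variable {G : Type u} [Group G] [Fintype G] [DecidableEq G]

theorem light_or (hPK : PKS_S.{u}) (c : Ctx G) (hX : 10 ^ 6 ≤ c.X) {N : ℕ} (g : Gad c N)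
    (hN : 4 ≤ N) (D : G → Prop)
    (hD : ∀ M, c.TK 1 M → ∀ y, ∑ x, ind (D x) * M y x ≤ 1 / c.X ^ 4) :
    c.Light 1 (fun w => g.W w ∨ D w) (1 / c.X ^ 3) := by
  intro M hM y
  have hp := hPK G c
  have hds : DS M := hp.2.2.2.2.2.2.1 1 M hM.1
  have hMN : c.TK N M := hp.2.2.2.2.2.2.2.2.2.1 1 N M (by omega) hM
  have h0 := g.light false M hMN y
  have h1 := g.light true M hMN y
  have h2 := hD M hM y
  have hX0 : 0 < c.X := by linarith
  have h3 : ∑ x, ind (g.W x ∨ D x) * M y x ≤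
      (∑ x, ind (∃ e ∈ g.res.E false, x ∈ g.Vs false e) * M y x) +
      (∑ x, ind (∃ e ∈ g.res.E true, x ∈ g.Vs true e) * M y x) +
      ∑ x, ind (D x) * M y x := by
    rw [← Finset.sum_add_distrib, ← Finset.sum_add_distrib]
    refine Finset.sum_le_sum fun x _ => ?_
    rw [← add_mul, ← add_mul]
    refine mul_le_mul_of_nonneg_right ?_ (hds.nn _ _)
    have n0 := ind_nonneg (∃ e ∈ g.res.E false, x ∈ g.Vs false e)
    have n1 := ind_nonneg (∃ e ∈ g.res.E true, x ∈ g.Vs true e)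
    have n2 := ind_nonneg (D x)
    by_cases h : g.W x ∨ D x
    · rw [ind_of h]
      rcases h with ⟨τ, h⟩ | h
      · cases τ with
        | false => rw [ind_of h]; linarith
        | true => rw [ind_of h]; linarith
      · rw [ind_of h]; linarith
    · rw [ind_not h]; linarith
  have h4 : c.del false ≤ 1 / c.X ^ 4 := by
    have : c.del false = 1 / c.X ^ 390 := by simp [Ctx.del]
    rw [this]
    exact one_div_le_one_div_of_le (by positivity) (pow_le_pow_right₀ (by linarith) (by norm_num))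
  have h5 : c.del true ≤ 1 / c.X ^ 4 := by
    have : c.del true = 1 / c.X ^ 2990 := by simp [Ctx.del]
    rw [this]
    exact one_div_le_one_div_of_le (by positivity) (pow_le_pow_right₀ (by linarith) (by norm_num))
  have h6 : 3 * (1 / c.X ^ 4) ≤ 1 / c.X ^ 3 := by
    rw [mul_one_div, div_le_div_iff₀ (by positivity) (by positivity)]
    have : c.X ^ 4 = c.X ^ 3 * c.X := by ring
    rw [this]
    have h7 : 0 < c.X ^ 3 := by positivity
    nlinarith
  show ∑ x, ind (g.W x ∨ D x) * M y x ≤ 1 / c.X ^ 3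
  linarith

/-- The touched vertices of good fields are light. -/
theorem sum_ind_tw {a T : ℕ} {Val : Type} [Fintype Val] (M : LM G Val a)
    (h : G → ℝ) (hh : ∀ v, 0 ≤ h v) (ω : Fin T → Fld a G Val) :
    ∑ x, ind (∃ t j l, ω t j x = some l) * h x ≤ ∑ t, M.tw h (ω t) := by
  have h1 : ∀ x, ind (∃ t j l, ω t j x = some l) * h x ≤
      ∑ t, ∑ j, ∑ e, ind (ω t j x = some e) * (h x + h (M.ex x e)) := by
    intro x
    have hnn : ∀ t j e, 0 ≤ ind (ω t j x = some e) * (h x + h (M.ex x e)) := fun t j e =>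
      mul_nonneg (ind_nonneg _) (add_nonneg (hh _) (hh _))
    by_cases hx : ∃ t j l, ω t j x = some l
    · rw [ind_of hx]
      obtain ⟨t, j, l, hl⟩ := hx
      calc 1 * h x ≤ ind (ω t j x = some l) * (h x + h (M.ex x l)) := by
            rw [ind_of hl]
            have := hh (M.ex x l)
            linarith
        _ ≤ ∑ e, ind (ω t j x = some e) * (h x + h (M.ex x e)) :=
            Finset.single_le_sum (f := fun e => ind (ω t j x = some e) * (h x + h (M.ex x e)))
              (fun e _ => hnn t j e) (Finset.mem_univ l)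
        _ ≤ ∑ j, ∑ e, ind (ω t j x = some e) * (h x + h (M.ex x e)) :=
            Finset.single_le_sum
              (f := fun j => ∑ e, ind (ω t j x = some e) * (h x + h (M.ex x e)))
              (fun j _ => Finset.sum_nonneg fun e _ => hnn t j e) (Finset.mem_univ j)
        _ ≤ _ :=
            Finset.single_le_sum
              (f := fun t => ∑ j, ∑ e, ind (ω t j x = some e) * (h x + h (M.ex x e)))
              (fun t _ => Finset.sum_nonneg fun j _ => Finset.sum_nonneg fun e _ => hnn t j e)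
              (Finset.mem_univ t)
    · rw [ind_not hx, zero_mul]
      exact Finset.sum_nonneg fun t _ => Finset.sum_nonneg fun j _ =>
        Finset.sum_nonneg fun e _ => hnn t j e
  refine (Finset.sum_le_sum fun x _ => h1 x).trans (le_of_eq ?_)
  rw [Finset.sum_comm]
  refine Finset.sum_congr rfl fun t _ => ?_
  unfold LM.tw
  rw [Finset.sum_comm]

end light

/-! ### Levels of ports -/

section ports

variable {G : Type u} [Group G] [Fintype G] [DecidableEq G] {c : Ctx G} {N : ℕ} (g : Gad c N)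

theorem gad_eq {τ τ' : Bool} {e e' : G × G} (he : e ∈ g.res.E τ) (he' : e' ∈ g.res.E τ') {v : G}
    (hv : v ∈ g.Vs τ e) (hv' : v ∈ g.Vs τ' e') : (τ, e) = (τ', e') := by
  by_contra h
  exact Finset.disjoint_left.1 (g.disj τ τ' e e' he he' h) hv hv'

theorem i_mem {τ : Bool} {e : G × G} (he : e ∈ g.res.E τ) : g.i τ e ∈ g.Vs τ e := by
  have ok := g.ok τ e he
  rw [← ok.av]
  exact List.mem_of_mem_head? (by rw [ok.ah]; rfl)

theorem o_mem {τ : Bool} {e : G × G} (he : e ∈ g.res.E τ) : g.o τ e ∈ g.Vs τ e := by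
  have ok := g.ok τ e he
  rw [← ok.av]
  exact List.mem_of_mem_getLast? (by rw [ok.al]; rfl)

theorem lev_port_false {m : ℕ} (lam : G ⊕ (G × G) → ZMod m) {e : G × G}
    (he : e ∈ g.res.E false) {v : G} (hv : v = g.i false e ∨ v = g.o false e) :
    g.lev lam v = lam (Sum.inr e) := by
  have hmem : v ∈ g.Vs false e := by
    rcases hv with rfl | rfl
    · exact i_mem g he
    · exact o_mem g he
  have hW : g.W v := ⟨false, e, he, hmem⟩
  have hex : ∃ e, e ∈ g.res.E false ∧ (v = g.i false e ∨ v = g.o false e) := ⟨e, he, hv⟩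
  unfold Gad.lev
  rw [if_neg (not_not.2 hW), dif_pos hex]
  have h1 := hex.choose_spec
  have key : ∀ e', e' ∈ g.res.E false → (v = g.i false e' ∨ v = g.o false e') →
      v ∈ g.Vs false e' := by
    rintro e' he' (h | h)
    · rw [h]; exact i_mem g he'
    · rw [h]; exact o_mem g he'
  have hmem' : v ∈ g.Vs false hex.choose := key _ h1.1 h1.2
  have := gad_eq g h1.1 he hmem' hmem
  rw [(Prod.mk.inj this).2]

theorem lev_port_true {m : ℕ} (lam : G ⊕ (G × G) → ZMod m) {e : G × G}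
    (he : e ∈ g.res.E true) {v : G} (hmem : v ∈ g.Vs true e) :
    g.lev lam v = 0 := by
  have hW : g.W v := ⟨true, e, he, hmem⟩
  unfold Gad.lev
  rw [if_neg (not_not.2 hW), dif_neg]
  rintro ⟨e', he', h⟩
  have hmem' : v ∈ g.Vs false e' := by
    rcases h with h | h
    · rw [h]; exact i_mem g he'
    · rw [h]; exact o_mem g he'
  have := gad_eq g he' he hmem' hmem
  exact absurd (Prod.mk.inj this).1 (by decide)

theorem lev_io {m : ℕ} (lam : G ⊕ (G × G) → ZMod m) (τ : Bool) (e : G × G)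
    (he : e ∈ g.res.E τ) : g.lev lam (g.i τ e) = g.lev lam (g.o τ e) := by
  cases τ with
  | false =>
    rw [lev_port_false g lam he (Or.inl rfl), lev_port_false g lam he (Or.inr rfl)]
  | true =>
    rw [lev_port_true g lam he (i_mem g he), lev_port_true g lam he (o_mem g he)]

theorem lev_out {m : ℕ} (lam : G ⊕ (G × G) → ZMod m) {v : G} (hv : ¬ g.W v) :
    g.lev lam v = lam (Sum.inl v) := by
  unfold Gad.lev
  rw [if_pos hv]

end ports

/-! ### The main theorem -/

theorem levs (hSP : STAGEP_S.{u, 0, u}) (hLV : LVUN_S.{u, u}) (hPP : PPD_S.{u})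
    (h2 : REG2_S.{u}) (h3 : REG3_S.{u}) (h4 : REG4_S.{u}) (h5 : REG5_S.{u})
    (hLM : LEVM_S.{u}) (hPH : PHL_S.{u}) (hPK : PKS_S.{u}) (hNU : NUM_S.{u}) : LEVS_S.{u} := by
  intro G _ _ _ c N g m _ hN hm
  obtain ⟨hX, -, -, -, -, -, hq, hb0, hbX, hbn, -, -, -, -⟩ := hNU G c
  have hX0 : 0 < c.X := by linarith
  have hX1 : 1 ≤ c.X := by linarith
  have hn : c.X ^ 200000 ≤ Fintype.card G := hbX.trans hbn
  -- the models
  choose M hIs hNH hSB hfk using fun (τ : Bool) (i : ZMod m) => hLM G c τ m i hm.1 hm.2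
  -- the test functions
  obtain ⟨m', f, hm', hf, hf'⟩ := (hPK G c).2.2.2.2.2.2.2.2.2.2.2.2.2 1 (by norm_num)
  let h : Fin m' × G → G → ℝ := fun p x => f p.1 p.2 x
  have hnX : c.X ≤ Fintype.card G := by
    calc c.X = c.X ^ 1 := (pow_one _).symm
      _ ≤ c.X ^ 200000 := pow_le_pow_right₀ hX1 (by norm_num)
      _ ≤ _ := hn
  have hn1 : (1 : ℝ) ≤ Fintype.card G := hX1.trans hnX
  have hcard : (Fintype.card (Fin m' × G) : ℝ) ≤ (Fintype.card G : ℝ) ^ 6 := by
    rw [Fintype.card_prod, Fintype.card_fin, Nat.cast_mul]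
    calc (m' : ℝ) * Fintype.card G ≤ Fintype.card G * Fintype.card G :=
          mul_le_mul_of_nonneg_right (hm'.trans hnX) (by linarith)
      _ = (Fintype.card G : ℝ) ^ 2 := by ring
      _ ≤ (Fintype.card G : ℝ) ^ 6 := pow_le_pow_right₀ hn1 (by norm_num)
  have hds : ∀ i, DS (f i) := fun i => (hPK G c).2.2.2.2.2.2.1 1 _ (hf i).1
  have hmcard : (Fintype.card (ZMod m) : ℝ) ≤ Fintype.card G := by
    rw [ZMod.card]
    calc (m : ℝ) ≤ 2 * c.X ^ 1000 := hm.2
      _ ≤ c.X * c.X ^ 1000 := mul_le_mul_of_nonneg_right (by linarith) (by positivity)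
      _ = c.X ^ 1001 := by ring
      _ ≤ c.X ^ 200000 := pow_le_pow_right₀ hX1 (by norm_num)
      _ ≤ _ := hn
  -- the law of the fields
  let ρ : ℝ := 1 / c.X ^ 5
  let μ0 : (Fin c.T → Fld (6 * c.k) G (ZMod m)) → ℝ :=
    piW (fun _ : Fin c.T => piW (fun _ : Fin (6 * c.k) => piW (fun _ : G =>
      optW (fun _ : ZMod m => ρ / m))))
  have hlaw : ∀ τ i, piW (fun _ : Fin c.T => (M τ i).law) = μ0 := by
    intro τ i
    have hP : (M τ i).P = fun _ _ => ρ / m := funext fun u => funext fun l => (hIs τ i).P u l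
    show piW (fun _ : Fin c.T => (M τ i).law) = μ0
    unfold LM.law
    rw [hP]
  have hmpos : (0 : ℝ) < m := by
    have : 0 < c.X ^ 1000 := by positivity
    linarith [hm.1]
  have hρ0 : 0 ≤ ρ := by positivity
  have hρ1 : ρ ≤ 1 := by
    show 1 / c.X ^ 5 ≤ 1
    rw [div_le_one (by positivity)]
    exact one_le_pow₀ hX1
  have hμ0 : IsPr μ0 := by
    refine H97.isPr_piW _ fun _ => H97.isPr_piW _ fun _ => H97.isPr_piW _ fun _ =>
      H97.isPr_optW _ (fun _ => by positivity) ?_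
    rw [Finset.sum_const, Finset.card_univ, ZMod.card, nsmul_eq_mul]
    have : (m : ℝ) * (ρ / m) = ρ := by field_simp
    rw [this]
    exact hρ1
  -- application of STAGEP
  have hstage : ∀ (τ : Bool) (W : G → Prop), c.Light 1 W (1 / c.X ^ 3) →
      Pr μ0 (fun ω => ¬ StageOK (M τ) c.X (c.q τ) (fun _ => W)
        (fun _ x y => x ≠ y ∧ c.adm τ true 9 x y) h (fun _ => 1) ω) ≤
        1 / (Fintype.card G : ℝ) ^ 2 := by
    intro τ W hW
    rw [← hlaw τ 0]
    refine hSP G (ZMod m) (6 * c.k) (ZMod m) (M τ) c.X (c.q τ) c.L0 c.r0 c.T (fun _ => W)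
      (fun _ x y => x ≠ y ∧ c.adm τ true 9 x y) 0 ?_ hmcard (hNH τ) (hSB τ) ?_
      (Fin m' × G) h (fun _ => 1) hcard ?_ ?_ ?_
    · intro i
      exact funext fun u => funext fun l => by rw [(hIs τ i).P, (hIs τ 0).P]
    · intro i x y hxy
      refine hPH G c τ m i (M τ i) (1 / c.X ^ 5) (by positivity) (hIs τ i) (hfk τ i) W hW x y
        hxy.1 ?_
      have := hxy.2
      unfold Ctx.adm at this ⊢
      rw [if_pos rfl] at this ⊢
      obtain ⟨j, hj, hj9, hw⟩ := this
      exact ⟨j, hj, by omega, hw⟩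
    · intro i v
      refine ⟨(hds _).nn _ _, fun j => ?_⟩
      rw [(hIs τ j).b]
      refine ((hf i.1).2 i.2 v).trans ?_
      exact div_le_div_of_nonneg_right (one_le_pow₀ hX1) hb0.le
    · intro i
      exact ⟨le_of_eq ((hds i.1).row i.2), le_refl _⟩
    · intro i
      rw [(hIs τ i).pt]
      exact one_div_le_one_div_of_le (by positivity) (pow_le_pow_right₀ hX1 (by norm_num))
  -- the forbidden sets
  let D0 : (Fin c.T → Fld (6 * c.k) G (ZMod m)) → G → Prop :=
    fun ω v => ∃ t j l, ω t j v = some l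
  have hL0 : c.Light 1 (fun w => g.W w ∨ False) (1 / c.X ^ 3) := by
    refine light_or hPK c hX g hN (fun _ => False) fun M' _ y => ?_
    rw [Finset.sum_eq_zero fun x _ => by rw [ind_not not_false, zero_mul]]
    positivity
  have hL1 : ∀ ω0, StageOK (M false) c.X (c.q false) (fun _ => fun w => g.W w ∨ False)
        (fun _ x y => x ≠ y ∧ c.adm false true 9 x y) h (fun _ => 1) ω0 →
      c.Light 1 (fun w => g.W w ∨ D0 ω0 w) (1 / c.X ^ 3) := by
    intro ω0 hω
    refine light_or hPK c hX g hN (D0 ω0) fun M' hM' y => ?_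
    obtain ⟨i, rfl⟩ := hf' M' hM'
    refine (sum_ind_tw (M false 0) (h (i, y)) (fun v => (hds i).nn _ _) ω0).trans ?_
    refine (hω.tw (i, y) 0).trans ?_
    rw [(hIs false 0).pt, mul_one, mul_one_div]
    have : c.X ^ 5 = c.X * c.X ^ 4 := by ring
    rw [this, ← div_div, div_self hX0.ne']
  -- the probability space
  let E0 : (Fin c.T → Fld (6 * c.k) G (ZMod m)) → Prop := fun ω0 =>
    StageOK (M false) c.X (c.q false) (fun _ => fun w => g.W w ∨ False)
      (fun _ x y => x ≠ y ∧ c.adm false true 9 x y) h (fun _ => 1) ω0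
  let E1 : (Fin c.T → Fld (6 * c.k) G (ZMod m)) → (Fin c.T → Fld (6 * c.k) G (ZMod m)) → Prop :=
    fun ω0 ω1 => StageOK (M true) c.X (c.q true) (fun _ => fun w => g.W w ∨ D0 ω0 w)
      (fun _ x y => x ≠ y ∧ c.adm true true 9 x y) h (fun _ => 1) ω1
  let μ : ((Fin c.T → Fld (6 * c.k) G (ZMod m)) × (Fin c.T → Fld (6 * c.k) G (ZMod m)) ×
      (G → ZMod m) × (G × G → ZMod m)) → ℝ := fun p =>
    μ0 p.1 * μ0 p.2.1 * unifW (G → ZMod m) p.2.2.1 * unifW (G × G → ZMod m) p.2.2.2
  have hμ : IsPr μ := isPr4 μ0 μ0 _ _ hμ0 hμ0 (isPr_unifW _) (isPr_unifW _)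
  let e : ℝ := 1 / (Fintype.card G : ℝ) ^ 2
  have hP4 : Pr μ (fun p => ¬ (E0 p.1 ∧ E1 p.1 p.2.1)) ≤ e + e :=
    pr4 μ0 μ0 _ _ hμ0 hμ0 (isPr_unifW _) (isPr_unifW _) E0 E1 e (hstage false _ hL0)
      (fun ω0 hω0 => hstage true _ (hL1 ω0 hω0))
  let lam : ((Fin c.T → Fld (6 * c.k) G (ZMod m)) × (Fin c.T → Fld (6 * c.k) G (ZMod m)) ×
      (G → ZMod m) × (G × G → ZMod m)) → (G ⊕ (G × G) → ZMod m) := fun p =>
    Sum.elim (fstv p.1 p.2.1 p.2.2.1) p.2.2.2
  have hreg : ∀ prop : (G ⊕ (G × G) → ZMod m) → Prop,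
      Pr (unifW (G ⊕ (G × G) → ZMod m)) (fun l => ¬ prop l) ≤ e →
      Pr μ (fun p => ¬ prop (lam p)) ≤ e := by
    intro prop hprop
    have := hLV G (G × G) m c.T (6 * c.k) ρ hρ0 hρ1 (fun ω0 ω1 d v => fstv ω0 ω1 d v)
      (fun ω0 ω1 d v h0 h1 => by
        show fstv ω0 ω1 d v = d v
        unfold fstv
        rw [fo_none (fun t j => h0 t j), fo_none (fun t j => h1 t j)]
        rfl)
      (fun ω0 ω1 d v t j l h0 h1 => by
        show fstv ω0 ω1 d v = l
        unfold fstv
        rw [fo_some (l := l) ⟨t, j, h0, h1⟩]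
        rfl)
      (fun ω0 ω1 d v t j l h0 h1 h1' => by
        show fstv ω0 ω1 d v = l
        unfold fstv
        rw [fo_none (fun t j => h0 t j), fo_some (l := l) ⟨t, j, h1, h1'⟩]
        rfl) (fun l => ind (¬ prop l))
    unfold Pr
    unfold Pr at hprop
    exact (le_of_eq this).trans hprop
  have hr2 := hreg (fun l => g.e2 (g.lev l)) (h2 G c N g m hN hm)
  have hr3 := hreg (fun l => g.e3 (g.lev l)) (h3 G c N g m hN hm)
  have hr4 := hreg (fun l => g.e4 (g.lev l)) (h4 G c N g m hN hm)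
  have hr5 := hreg (fun l => g.e5 (g.lev l)) (h5 G c N g m hN hm)
  have htot : Pr μ (fun p => ¬ (E0 p.1 ∧ E1 p.1 p.2.1) ∨ ¬ g.e2 (g.lev (lam p)) ∨
      ¬ g.e3 (g.lev (lam p)) ∨ ¬ g.e4 (g.lev (lam p)) ∨ ¬ g.e5 (g.lev (lam p))) < 1 := by
    have a1 := H97.pr_or μ hμ.nn (fun p => ¬ g.e4 (g.lev (lam p)))
      (fun p => ¬ g.e5 (g.lev (lam p)))
    have a2 := H97.pr_or μ hμ.nn (fun p => ¬ g.e3 (g.lev (lam p)))
      (fun p => ¬ g.e4 (g.lev (lam p)) ∨ ¬ g.e5 (g.lev (lam p)))
    have a3 := H97.pr_or μ hμ.nn (fun p => ¬ g.e2 (g.lev (lam p)))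
      (fun p => ¬ g.e3 (g.lev (lam p)) ∨ ¬ g.e4 (g.lev (lam p)) ∨ ¬ g.e5 (g.lev (lam p)))
    have a4 := H97.pr_or μ hμ.nn (fun p => ¬ (E0 p.1 ∧ E1 p.1 p.2.1))
      (fun p => ¬ g.e2 (g.lev (lam p)) ∨ ¬ g.e3 (g.lev (lam p)) ∨ ¬ g.e4 (g.lev (lam p)) ∨
        ¬ g.e5 (g.lev (lam p)))
    have he : 6 * e < 1 := by
      show 6 * (1 / (Fintype.card G : ℝ) ^ 2) < 1
      rw [mul_one_div, div_lt_one (by positivity)]
      nlinarith
    linarith
  obtain ⟨p, -, hp⟩ := H97.pr_good μ hμ _ htot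
  push Not at hp
  obtain ⟨⟨hE0, hE1⟩, he2, he3, he4, he5⟩ := hp
  have hio : ∀ τ, ∀ e ∈ g.res.E τ, g.lev (lam p) (g.i τ e) = g.lev (lam p) (g.o τ e) :=
    fun τ e he => lev_io g (lam p) τ e he
  have hp0 := hPP G c N g m false (M false) (g.lev (lam p)) p.1 (fun _ => False) (by omega) hm
    (hIs false) (fun i i' r x y hir => hfk false i i' r x y hir)
    (fun i x y hxy hadm => hE0.low i x y ⟨hxy, hadm⟩) (fun i t => hE0.mass i t)
    (fun v hv _ t j l hval hearly hslot => by
      rw [lev_out g (lam p) hv]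
      show fstv p.1 p.2.1 p.2.2.1 v = l
      unfold val at hval
      split at hval
      · next hj =>
        unfold fstv
        rw [fo_some (l := l) ⟨t, ⟨j, hj⟩, hval, ?_⟩]
        · rfl
        · intro t' j' hlt
          rcases hlt with hlt | ⟨rfl, hlt⟩
          · cases hv' : p.1 t' j' v with
            | none => rfl
            | some l' =>
              refine absurd ?_ (hearly t' hlt j' l')
              unfold val
              rw [dif_pos j'.2]
              exact hv'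
          · cases hv' : p.1 t' j' v with
            | none => rfl
            | some l' =>
              have : (j' : ℕ) = j := hslot j' l' (by
                unfold val
                rw [dif_pos j'.2]
                exact hv')
              have hlt' : (j' : ℕ) < j := hlt
              omega
      · cases hval)
    hio he2
  have hp1 := hPP G c N g m true (M true) (g.lev (lam p)) p.2.1 (D0 p.1) (by omega) hm
    (hIs true) (fun i i' r x y hir => hfk true i i' r x y hir)
    (fun i x y hxy hadm => hE1.low i x y ⟨hxy, hadm⟩) (fun i t => hE1.mass i t)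
    (fun v hv hD t j l hval hearly hslot => by
      rw [lev_out g (lam p) hv]
      show fstv p.1 p.2.1 p.2.2.1 v = l
      unfold val at hval
      split at hval
      · next hj =>
        unfold fstv
        rw [fo_none (fun t j => ?_), fo_some (l := l) ⟨t, ⟨j, hj⟩, hval, ?_⟩]
        · rfl
        · intro t' j' hlt
          rcases hlt with hlt | ⟨rfl, hlt⟩
          · cases hv' : p.2.1 t' j' v with
            | none => rfl
            | some l' =>
              refine absurd ?_ (hearly t' hlt j' l')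
              unfold val
              rw [dif_pos j'.2]
              exact hv'
          · cases hv' : p.2.1 t' j' v with
            | none => rfl
            | some l' =>
              have : (j' : ℕ) = j := hslot j' l' (by
                unfold val
                rw [dif_pos j'.2]
                exact hv')
              have hlt' : (j' : ℕ) < j := hlt
              omega
        · cases hv' : p.1 t j v with
          | none => rfl
          | some l' => exact absurd ⟨t, j, l', hv'⟩ hD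
      · cases hval)
    hio he2
  refine ⟨g.lev (lam p), ⟨hio, fun e he => lev_port_true g (lam p) he (i_mem g he),
    hp0.1 rfl, hp1.2 rfl, he2, he3, he4, he5⟩⟩

end Pool.Agent.Lib.MP_688fd0_co.TE.H30
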